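import Mathlib

/-!
# The hyperkahler Kirwan map of a linear representation need not be surjective

Let `G` be a compact Lie group acting linearly and unitarily on `A = ℂ^ι`; when `G` acts freely on a
nonempty level set the representation is faithful, so `G` is a closed subgroup of the unitary
group `U(A)`.  The file sets up the hyperkahler moment map `μ = (μ_ℝ, μ_ℂ)` of `G` on
`T*A = A × A*`, its level sets `μ⁻¹(ξ)`, the Borel construction `(E × T*A)/G` (for `E = EG`), rational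
singular cohomology, and the Kirwan map, i.e. the restriction
`H^*_G(T*A) → H^*_G(μ⁻¹(ξ)) = H^*(μ⁻¹(ξ)/G)`.

The main theorem gives, for every `q ≥ 1`, a group `G ≅ U(2) × U(1)` acting on `A = ℂ^(4+q)` and a
`G`-fixed value `ξ` such that `G` acts freely on `μ⁻¹(ξ)` and the Kirwan map is not surjective.

The example: `A = (ℂ² ⊗ z) ⊕ ℂ² ⊕ det^q`, where `(g, z) ∈ U(2) × U(1)` acts by
`(a₁, a₂, a₃) ↦ (z g a₁, g a₂, det(g) a₃)`, and `ξ = (0; 2·tr, 1)`, so that the equations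
`μ_ℂ = ξ_ℂ` read `a₁ b₁ + a₂ b₂ + (b₃·a₃) I = 2 I`, `b₁ a₁ = 1`.  The invariant function
`s = b₃·a₃` takes exactly the two values `1` and `2` on `μ⁻¹(ξ)`.  Hence `μ⁻¹(ξ)/G` is disconnected
(it is the disjoint union of two copies of the cotangent bundle of the projective space of
dimension `q - 1`), while `BG` is connected.
-/

namespace Pool.Agent.Results.MP_8779dd_gt.KirwanNotSurjective

open Matrix

/-! ## Singular cochains with rational coefficients -/

/-- The `i`-th face inclusion of the standard `n`-simplex into the standard `(n+1)`-simplex. -/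
noncomputable def face (n : ℕ) (i : Fin (n + 2)) :
    C(stdSimplex ℝ (Fin (n + 1)), stdSimplex ℝ (Fin (n + 2))) :=
  ⟨stdSimplex.map (Fin.succAbove i), stdSimplex.continuous_map _⟩

/-- The coboundary of a rational singular `n`-cochain `φ` of a space `Y`. -/
noncomputable def coboundary {Y : Type} [TopologicalSpace Y] {n : ℕ}
    (φ : C(stdSimplex ℝ (Fin (n + 1)), Y) → ℚ) : C(stdSimplex ℝ (Fin (n + 2)), Y) → ℚ :=
  fun σ => ∑ i : Fin (n + 2), (-1 : ℚ) ^ (i : ℕ) * φ (σ.comp (face n i))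

/-- `φ` is a singular cocycle. -/
def IsCocycle {Y : Type} [TopologicalSpace Y] {n : ℕ}
    (φ : C(stdSimplex ℝ (Fin (n + 1)), Y) → ℚ) : Prop :=
  ∀ σ, coboundary φ σ = 0

/-- `φ` is a singular coboundary (in degree `0` this means `φ = 0`). -/
def IsCoboundary {Y : Type} [TopologicalSpace Y] :
    {n : ℕ} → (C(stdSimplex ℝ (Fin (n + 1)), Y) → ℚ) → Prop
  | 0, φ => ∀ σ, φ σ = 0
  | n + 1, φ => ∃ χ : C(stdSimplex ℝ (Fin (n + 1)), Y) → ℚ, ∀ σ, φ σ = coboundary χ σ

/-- For a subspace `S` of a space `Y`, the restriction `H^*(Y; ℚ) → H^*(S; ℚ)` in singular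
cohomology is surjective (in every degree): every cocycle on `S` is cohomologous to the
restriction of a cocycle on `Y`. -/
def RestrictionSurjective (Y : Type) [TopologicalSpace Y] (S : Set Y) : Prop :=
  ∀ (n : ℕ) (φ : C(stdSimplex ℝ (Fin (n + 1)), S) → ℚ), IsCocycle φ →
    ∃ ψ : C(stdSimplex ℝ (Fin (n + 1)), Y) → ℚ, IsCocycle ψ ∧
      IsCoboundary (fun σ : C(stdSimplex ℝ (Fin (n + 1)), S) =>
        φ σ - ψ ((⟨Subtype.val, continuous_subtype_val⟩ : C(S, Y)).comp σ))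

/-! ## The hyperkahler setting -/

variable {ι : Type} [Fintype ι] [DecidableEq ι]

/-- `T*A = A × A*` for `A = ℂ^ι`: a column vector `a` and a row vector `b`. -/
abbrev Cot (ι : Type) : Type := (ι → ℂ) × (ι → ℂ)

/-- The action of the unitary group `U(A)` on `T*A`: `g (a, b) = (g a, b g⁻¹)`. -/
def act (g : Matrix.unitaryGroup ι ℂ) (x : Cot ι) : Cot ι :=
  ((g : Matrix ι ι ℂ) *ᵥ x.1, x.2 ᵥ* ((g⁻¹ : Matrix.unitaryGroup ι ℂ) : Matrix ι ι ℂ))

theorem act_one (x : Cot ι) : act 1 x = x := by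
  simp [act]

theorem act_mul (g h : Matrix.unitaryGroup ι ℂ) (x : Cot ι) :
    act (g * h) x = act g (act h x) := by
  simp only [act, Matrix.mulVec_mulVec, Matrix.vecMul_vecMul, _root_.mul_inv_rev,
    Matrix.UnitaryGroup.mul_val]

/-- The Lie algebra of a closed subgroup `G` of `U(A)`: all velocities at `0` of curves in `G`
through `1` (that are differentiable at `0`), as matrices. -/
def lieAlgebra (G : Subgroup (Matrix.unitaryGroup ι ℂ)) : Set (Matrix ι ι ℂ) :=
  {X | ∃ γ : ℝ → Matrix.unitaryGroup ι ℂ, (∀ t, γ t ∈ G) ∧ γ 0 = 1 ∧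
    ∀ i j, HasDerivAt (fun t => (γ t : Matrix ι ι ℂ) i j) (X i j) 0}

/-- The value of the real moment map at `x = (a, b)` on a Lie algebra element `X`:
`(i/2) (a^* X a - b X b^*)`, which is real for skew-Hermitian `X`. -/
noncomputable def momentReal (x : Cot ι) (X : Matrix ι ι ℂ) : ℝ :=
  ((Complex.I / 2) * (star x.1 ⬝ᵥ (X *ᵥ x.1) - x.2 ⬝ᵥ (X *ᵥ star x.2))).re

/-- The value of the complex moment map at `x = (a, b)` on a Lie algebra element `X`: `b X a`. -/
def momentComplex (x : Cot ι) (X : Matrix ι ι ℂ) : ℂ := x.2 ⬝ᵥ (X *ᵥ x.1)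

/-- A value `ξ = (ξ_ℝ, ξ_ℂ)` for the hyperkahler moment map: an element of `𝔤* ⊗ (ℝ ⊕ ℂ)`, given by
a pair of real-linear functionals on matrices (only their restrictions to `𝔤` matter). -/
abbrev MomentValue (ι : Type) : Type :=
  (Matrix ι ι ℂ →ₗ[ℝ] ℝ) × (Matrix ι ι ℂ →ₗ[ℝ] ℂ)

/-- The level set `μ⁻¹(ξ)` of the hyperkahler moment map `μ = (μ_ℝ, μ_ℂ)` of `G` on `T*A`. -/
def levelSet (G : Subgroup (Matrix.unitaryGroup ι ℂ)) (ξ : MomentValue ι) : Set (Cot ι) :=
  {x | ∀ X ∈ lieAlgebra G, momentReal x X = ξ.1 X ∧ momentComplex x X = ξ.2 X}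

/-- `ξ` is fixed by the coadjoint action of `G`. -/
def IsCentral (G : Subgroup (Matrix.unitaryGroup ι ℂ)) (ξ : MomentValue ι) : Prop :=
  ∀ g ∈ G, ∀ X ∈ lieAlgebra G,
    ξ.1 ((g : Matrix ι ι ℂ) * X * ((g⁻¹ : Matrix.unitaryGroup ι ℂ) : Matrix ι ι ℂ)) = ξ.1 X ∧
    ξ.2 ((g : Matrix ι ι ℂ) * X * ((g⁻¹ : Matrix.unitaryGroup ι ℂ) : Matrix ι ι ℂ)) = ξ.2 X

/-- `G` acts freely on the level set `μ⁻¹(ξ)`. -/
def ActsFreely (G : Subgroup (Matrix.unitaryGroup ι ℂ)) (ξ : MomentValue ι) : Prop :=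
  ∀ x ∈ levelSet G ξ, ∀ g ∈ G, act g x = x → g = 1

/-! ## Borel construction and the Kirwan map -/

/-- The orbit equivalence relation of the diagonal action of `G` on `E × T*A`. -/
def borelSetoid (G : Subgroup (Matrix.unitaryGroup ι ℂ)) (E : Type) [MulAction G E] :
    Setoid (E × Cot ι) where
  r p q := ∃ g : G, g • p.1 = q.1 ∧ act (g : Matrix.unitaryGroup ι ℂ) p.2 = q.2
  iseqv := by
    refine ⟨fun p => ⟨1, one_smul _ _, by simp [act_one]⟩, ?_, ?_⟩
    · rintro p q ⟨g, h1, h2⟩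
      refine ⟨g⁻¹, by rw [← h1, inv_smul_smul], ?_⟩
      rw [← h2, Subgroup.coe_inv, ← act_mul, inv_mul_cancel, act_one]
    · rintro p q r ⟨g, h1, h2⟩ ⟨g', h1', h2'⟩
      refine ⟨g' * g, by rw [mul_smul, h1, h1'], ?_⟩
      rw [← h2', ← h2, Subgroup.coe_mul, act_mul]

/-- The homotopy quotient `(E × T*A)/G`; for `E = EG` its cohomology is `H^*_G(T*A) = H^*(BG)`. -/
abbrev HomotopyQuotient (G : Subgroup (Matrix.unitaryGroup ι ℂ)) (E : Type) [MulAction G E] :
    Type :=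
  Quotient (borelSetoid G E)

/-- The subspace `(E × μ⁻¹(ξ))/G` of `(E × T*A)/G`. -/
def levelPart (G : Subgroup (Matrix.unitaryGroup ι ℂ)) (ξ : MomentValue ι) (E : Type)
    [MulAction G E] : Set (HomotopyQuotient G E) :=
  {y | ∃ (e : E) (x : Cot ι), x ∈ levelSet G ξ ∧ y = Quotient.mk (borelSetoid G E) (e, x)}

/-- Surjectivity of the Kirwan map `H^*_G(T*A) → H^*_G(μ⁻¹(ξ))` computed with the space `E`
in the role of `EG`. -/
def KirwanSurjective (G : Subgroup (Matrix.unitaryGroup ι ℂ)) (ξ : MomentValue ι) (E : Type)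
    [TopologicalSpace E] [MulAction G E] : Prop :=
  RestrictionSurjective (HomotopyQuotient G E) (levelPart G ξ E)

/-! ## Algebra -/

theorem alg_dichotomy (x0 x1 y0 y1 m0 m1 n0 n1 m : ℂ)
    (h00 : x0 * m0 + y0 * n0 = m) (h11 : x1 * m1 + y1 * n1 = m)
    (h01 : x0 * m1 + y0 * n1 = 0) (h10 : x1 * m0 + y1 * n0 = 0)
    (hb : m0 * x0 + m1 * x1 = 1) : m * (1 - m) = 0 := by
  linear_combination (-m) * hb + (m0 * x0 * h00 + m0 * x1 * h01 + m1 * x0 * h10 + m1 * x1 * h11)
    - (m0 * x0 + m1 * x1) * (h00 + h11) + ((x1 * m1 + y1 * n1) * h00 + m * h11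
      - (x1 * m0 + y1 * n0) * h01)

/-- freeness, first type -/
theorem alg_free_one (x0 x1 y0 y1 m0 m1 n0 n1 p q r t z : ℂ)
    (h00 : x0 * m0 + y0 * n0 = 1) (h11 : x1 * m1 + y1 * n1 = 1)
    (h01 : x0 * m1 + y0 * n1 = 0) (h10 : x1 * m0 + y1 * n0 = 0)
    (e1 : z * (p * x0 + q * x1) = x0) (e2 : z * (r * x0 + t * x1) = x1)
    (e3 : p * y0 + q * y1 = y0) (e4 : r * y0 + t * y1 = y1)
    (hd : p * t - q * r = 1) : z = 1 ∧ p = 1 ∧ q = 0 ∧ r = 0 ∧ t = 1 := by
  have hdet : (x0 * y1 - x1 * y0) * (m0 * n1 - m1 * n0) = 1 := by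
    linear_combination (x1 * m1 + y1 * n1) * h00 + h11 - (x1 * m0 + y1 * n0) * h01
  have hP : x0 * y1 - x1 * y0 ≠ 0 := by
    intro h; rw [h] at hdet; simp at hdet
  have hz : z = 1 := by
    have : (x0 * y1 - x1 * y0) * (z - 1) = 0 := by
      linear_combination -(x0 * y1 - x1 * y0) * z * hd + (r * y0 + t * y1) * e1
        - (p * y0 + q * y1) * e2 - x1 * e3 + x0 * e4
    rcases mul_eq_zero.1 this with h | h
    · exact absurd h hP
    · linear_combination h
  subst hz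
  refine ⟨rfl, ?_, ?_, ?_, ?_⟩
  · linear_combination m0 * e1 + n0 * e3 - p * h00 - q * h10 + h00
  · linear_combination m1 * e1 + n1 * e3 - p * h01 - q * h11 + h01
  · linear_combination m0 * e2 + n0 * e4 - r * h00 - t * h10 + h10
  · linear_combination m1 * e2 + n1 * e4 - r * h01 - t * h11 + h11

/-- freeness, second type -/
theorem alg_free_two (x0 x1 y0 y1 m0 m1 n0 n1 p q r t z : ℂ)
    (h00 : x0 * m0 + y0 * n0 = 0) (h11 : x1 * m1 + y1 * n1 = 0)
    (h01 : x0 * m1 + y0 * n1 = 0) (h10 : x1 * m0 + y1 * n0 = 0)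
    (hb : m0 * x0 + m1 * x1 = 1)
    (e1 : z * (p * x0 + q * x1) = x0) (e2 : z * (r * x0 + t * x1) = x1)
    (e3 : p * y0 + q * y1 = y0) (e4 : r * y0 + t * y1 = y1)
    (e5 : z * (m0 * p + m1 * r) = m0) (e6 : z * (m0 * q + m1 * t) = m1)
    (hd : p * t - q * r = 1) : z = 1 ∧ p = 1 ∧ q = 0 ∧ r = 0 ∧ t = 1 := by
  -- a1 = - a2 (b2 . a1)
  have f0 : x0 = -(y0 * (n0 * x0 + n1 * x1)) := by
    linear_combination x0 * h00 + x1 * h01 - x0 * hb
  have f1 : x1 = -(y1 * (n0 * x0 + n1 * x1)) := by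
    linear_combination x0 * h10 + x1 * h11 - x1 * hb
  have g0 : p * x0 + q * x1 = x0 := by
    linear_combination p * f0 + q * f1 - f0 - (n0 * x0 + n1 * x1) * e3
  have g1 : r * x0 + t * x1 = x1 := by
    linear_combination r * f0 + t * f1 - f1 - (n0 * x0 + n1 * x1) * e4
  have hz : z = 1 := by
    linear_combination m0 * e1 + m1 * e2 - z * m0 * g0 - z * m1 * g1 - (z - 1) * hb
  subst hz
  have k0 : m0 * (p - 1) + m1 * r = 0 := by linear_combination e5
  have k1 : m0 * q + m1 * (t - 1) = 0 := by linear_combination e6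
  have l0 : (p - 1) * x0 + q * x1 = 0 := by linear_combination g0
  have l1 : r * x0 + (t - 1) * x1 = 0 := by linear_combination g1
  have p0 : p - 1 = m1 * x1 * (p + t - 2) := by
    linear_combination -(p - 1) * hb + x0 * k0 - m1 * l1
  have t0 : t - 1 = m0 * x0 * (p + t - 2) := by
    linear_combination -(t - 1) * hb + x1 * k1 - m0 * l0
  have q0 : q = -(x0 * m1 * (p + t - 2)) := by
    linear_combination -q * hb + x0 * k1 + m1 * l0
  have r0 : r = -(x1 * m0 * (p + t - 2)) := by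
    linear_combination -r * hb + x1 * k0 + m0 * l1
  have htr : p + t - 2 = 0 := by
    have e : (p - 1) * (t - 1) - q * r = 0 := by
      rw [p0, t0, q0, r0]; ring
    linear_combination hd - e
  rw [htr] at p0 t0 q0 r0
  refine ⟨rfl, ?_, ?_, ?_, ?_⟩
  · linear_combination p0
  · linear_combination q0
  · linear_combination r0
  · linear_combination t0

/-! ## The example -/

section Example

/-- index set of `A = (ℂ² ⊗ z) ⊕ ℂ² ⊕ det^q` -/
abbrev Idx (q : ℕ) : Type := Fin 2 ⊕ (Fin 2 ⊕ Fin q)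

/-- the matrix of `(g, z)` on `A` -/
noncomputable def repMat (q : ℕ) (g : Matrix (Fin 2) (Fin 2) ℂ) (z : ℂ) :
    Matrix (Idx q) (Idx q) ℂ :=
  fromBlocks (z • g) 0 0 (fromBlocks g 0 0 (g.det • 1))

theorem repMat_mul (q : ℕ) (g g' : Matrix (Fin 2) (Fin 2) ℂ) (z z' : ℂ) :
    repMat q (g * g') (z * z') = repMat q g z * repMat q g' z' := by
  simp only [repMat, fromBlocks_multiply, Matrix.mul_zero, Matrix.zero_mul, add_zero, zero_add,
    Matrix.det_mul, smul_mul_smul_comm, Matrix.one_mul]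

theorem repMat_star (q : ℕ) (g : Matrix (Fin 2) (Fin 2) ℂ) (z : ℂ) :
    star (repMat q g z) = repMat q (star g) (star z) := by
  simp only [repMat, Matrix.star_eq_conjTranspose, fromBlocks_conjTranspose,
    Matrix.conjTranspose_zero, Matrix.conjTranspose_smul, Matrix.det_conjTranspose,
    Matrix.conjTranspose_one]

theorem repMat_one (q : ℕ) : repMat q 1 1 = 1 := by
  simp [repMat, fromBlocks_one]

/-- the representation `U(2) × U(1) → U(A)` -/
noncomputable def rep (q : ℕ) :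
    (Matrix.unitaryGroup (Fin 2) ℂ × Circle) →* Matrix.unitaryGroup (Idx q) ℂ where
  toFun p := ⟨repMat q p.1 p.2, by
    rw [Matrix.mem_unitaryGroup_iff, repMat_star, ← repMat_mul]
    have h1 : (p.1 : Matrix (Fin 2) (Fin 2) ℂ) * star (p.1 : Matrix (Fin 2) (Fin 2) ℂ) = 1 :=
      Matrix.mem_unitaryGroup_iff.1 p.1.2
    have h2 : (p.2 : ℂ) * star (p.2 : ℂ) = 1 := by
      have := Circle.coe_inv_eq_conj p.2
      have h3 : (p.2 : ℂ) * ((p.2⁻¹ : Circle) : ℂ) = 1 := by
        rw [← Circle.coe_mul, mul_inv_cancel, Circle.coe_one]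
      rw [this] at h3
      exact h3
    rw [h1, h2, repMat_one]⟩
  map_one' := by
    apply Subtype.ext
    simp [repMat_one]
  map_mul' p p' := by
    apply Subtype.ext
    simp [repMat_mul]

/-- the group `G = U(2) × U(1)` as a subgroup of `U(A)` -/
noncomputable def grp (q : ℕ) : Subgroup (Matrix.unitaryGroup (Idx q) ℂ) := (rep q).range

theorem isCompact_unitaryGroup_two :
    IsCompact ((Matrix.unitaryGroup (Fin 2) ℂ : Set (Matrix (Fin 2) (Fin 2) ℂ))) := by
  have hK : IsCompact (Set.pi Set.univ (fun _ : Fin 2 => Set.pi Set.univ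
      (fun _ : Fin 2 => Metric.closedBall (0 : ℂ) 1))) :=
    isCompact_univ_pi (fun _ => isCompact_univ_pi fun _ => isCompact_closedBall _ _)
  refine IsCompact.of_isClosed_subset hK ?_ ?_
  · have : ((Matrix.unitaryGroup (Fin 2) ℂ : Set (Matrix (Fin 2) (Fin 2) ℂ))) =
        {A : Matrix (Fin 2) (Fin 2) ℂ | A * star A = 1} := by
      ext A
      exact Matrix.mem_unitaryGroup_iff
    rw [this]
    exact isClosed_eq (continuous_id.mul continuous_star) continuous_const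
  · intro A hA i _ j _
    rw [mem_closedBall_zero_iff]
    exact entry_norm_bound_of_unitary hA i j

theorem continuous_rep (q : ℕ) : Continuous (rep q) := by
  refine Continuous.subtype_mk ?_ _
  unfold repMat
  have h1 : Continuous fun p : (Matrix.unitaryGroup (Fin 2) ℂ × Circle) =>
    (p.1 : Matrix (Fin 2) (Fin 2) ℂ) := continuous_subtype_val.comp continuous_fst
  have h2 : Continuous fun p : (Matrix.unitaryGroup (Fin 2) ℂ × Circle) =>
    (p.2 : ℂ) := by fun_prop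
  exact Continuous.matrix_fromBlocks (h2.smul h1) continuous_const continuous_const
    (Continuous.matrix_fromBlocks h1 continuous_const continuous_const
      (h1.matrix_det.smul continuous_const))

theorem isClosed_grp (q : ℕ) : IsClosed (grp q : Set (Matrix.unitaryGroup (Idx q) ℂ)) := by
  have : CompactSpace (Matrix.unitaryGroup (Fin 2) ℂ) :=
    isCompact_iff_compactSpace.1 isCompact_unitaryGroup_two
  have : (grp q : Set (Matrix.unitaryGroup (Idx q) ℂ)) = Set.range (rep q) := by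
    ext x; simp [grp]
  rw [this]
  exact (isCompact_range (continuous_rep q)).isClosed

/-- the block matrix of an infinitesimal element `(Y, w)` -/
noncomputable def lieMat (q : ℕ) (Y : Matrix (Fin 2) (Fin 2) ℂ) (w : ℂ) :
    Matrix (Idx q) (Idx q) ℂ :=
  fromBlocks (Y + w • 1) 0 0 (fromBlocks Y 0 0 ((Y 0 0 + Y 1 1) • 1))

theorem lieMat_mem (q : ℕ) (g : ℝ → Matrix.unitaryGroup (Fin 2) ℂ) (z : ℝ → Circle)
    (Y : Matrix (Fin 2) (Fin 2) ℂ) (w : ℂ) (hg0 : g 0 = 1) (hz0 : z 0 = 1)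
    (hg : ∀ i j, HasDerivAt (fun t => (g t : Matrix (Fin 2) (Fin 2) ℂ) i j) (Y i j) 0)
    (hz : HasDerivAt (fun t => (z t : ℂ)) w 0) : lieMat q Y w ∈ lieAlgebra (grp q) := by
  refine ⟨fun t => rep q (g t, z t), fun t => ⟨_, rfl⟩, ?_, ?_⟩
  · simp only [hg0, hz0]
    exact (rep q).map_one
  · have hg1 : ∀ i j, (g 0 : Matrix (Fin 2) (Fin 2) ℂ) i j = (1 : Matrix (Fin 2) (Fin 2) ℂ) i j := by
      intro i j; rw [hg0]; rfl
    have hz1 : (z 0 : ℂ) = 1 := by rw [hz0]; rfl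
    rintro (i | i | i) (j | j | j)
    · have := hz.mul (hg i j)
      rw [hg1, hz1] at this
      have h2 : w * (1 : Matrix (Fin 2) (Fin 2) ℂ) i j + 1 * Y i j =
          lieMat q Y w (Sum.inl i) (Sum.inl j) := by
        simp [lieMat]; ring
      rw [← h2]
      exact this
    · simpa [rep, repMat, lieMat] using hasDerivAt_const (0 : ℝ) (0 : ℂ)
    · simpa [rep, repMat, lieMat] using hasDerivAt_const (0 : ℝ) (0 : ℂ)
    · simpa [rep, repMat, lieMat] using hasDerivAt_const (0 : ℝ) (0 : ℂ)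
    · simpa [rep, repMat, lieMat] using hg i j
    · simpa [rep, repMat, lieMat] using hasDerivAt_const (0 : ℝ) (0 : ℂ)
    · simpa [rep, repMat, lieMat] using hasDerivAt_const (0 : ℝ) (0 : ℂ)
    · simpa [rep, repMat, lieMat] using hasDerivAt_const (0 : ℝ) (0 : ℂ)
    · have hd : HasDerivAt (fun t => (g t : Matrix (Fin 2) (Fin 2) ℂ).det) (Y 0 0 + Y 1 1) 0 := by
        have := ((hg 0 0).mul (hg 1 1)).sub ((hg 0 1).mul (hg 1 0))
        rw [hg1, hg1, hg1, hg1] at this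
        simp only [Matrix.det_fin_two]
        have h2 : Y 0 0 * (1 : Matrix (Fin 2) (Fin 2) ℂ) 1 1 +
            (1 : Matrix (Fin 2) (Fin 2) ℂ) 0 0 * Y 1 1 -
            (Y 0 1 * (1 : Matrix (Fin 2) (Fin 2) ℂ) 1 0 +
            (1 : Matrix (Fin 2) (Fin 2) ℂ) 0 1 * Y 1 0) = Y 0 0 + Y 1 1 := by
          simp
        rw [← h2]
        exact this
      have := hd.mul_const ((1 : Matrix (Fin q) (Fin q) ℂ) i j)
      simpa [rep, repMat, lieMat] using this

theorem lieAlgebra_eq (q : ℕ) (X : Matrix (Idx q) (Idx q) ℂ) (hX : X ∈ lieAlgebra (grp q)) :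
    ∃ Y w, X = lieMat q Y w := by
  obtain ⟨γ, hγ, h0, hd⟩ := hX
  choose p hp using hγ
  have hent : ∀ t i j, (γ t : Matrix (Idx q) (Idx q) ℂ) i j = repMat q (p t).1 (p t).2 i j := by
    intro t i j
    rw [← hp t]; rfl
  have h0' : ∀ i j, repMat q (p 0).1 (p 0).2 i j = (1 : Matrix (Idx q) (Idx q) ℂ) i j := by
    intro i j
    rw [← hent, h0]; rfl
  have hd' : ∀ i j, HasDerivAt (fun t => repMat q (p t).1 (p t).2 i j) (X i j) 0 := by
    intro i j
    have := hd i j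
    simp only [hent] at this
    exact this
  set g : ℝ → Matrix (Fin 2) (Fin 2) ℂ := fun t => ((p t).1 : Matrix (Fin 2) (Fin 2) ℂ) with hgdef
  set z : ℝ → ℂ := fun t => ((p t).2 : ℂ) with hzdef
  have hA1 : ∀ i j : Fin 2, HasDerivAt (fun t => z t * g t i j) (X (Sum.inl i) (Sum.inl j)) 0 :=
    fun i j => hd' (Sum.inl i) (Sum.inl j)
  have hA2 : ∀ i j : Fin 2, HasDerivAt (fun t => g t i j)
      (X (Sum.inr (Sum.inl i)) (Sum.inr (Sum.inl j))) 0 :=
    fun i j => hd' (Sum.inr (Sum.inl i)) (Sum.inr (Sum.inl j))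
  have hg0 : ∀ i j : Fin 2, g 0 i j = (1 : Matrix (Fin 2) (Fin 2) ℂ) i j := by
    intro i j
    have := h0' (Sum.inr (Sum.inl i)) (Sum.inr (Sum.inl j))
    simpa [repMat, Matrix.one_apply] using this
  have hz0 : z 0 = 1 := by
    have := h0' (Sum.inl 0) (Sum.inl 0)
    simp only [repMat, fromBlocks_apply₁₁, Matrix.smul_apply, smul_eq_mul, Matrix.one_apply_eq]
      at this
    have h2 := hg0 0 0
    simp only [hgdef, Matrix.one_apply_eq] at h2
    rw [h2, mul_one] at this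
    exact this
  have hrel : ∀ i j k l : Fin 2,
      X (Sum.inl i) (Sum.inl j) * (1 : Matrix (Fin 2) (Fin 2) ℂ) k l +
        (1 : Matrix (Fin 2) (Fin 2) ℂ) i j * X (Sum.inr (Sum.inl k)) (Sum.inr (Sum.inl l)) =
      X (Sum.inl k) (Sum.inl l) * (1 : Matrix (Fin 2) (Fin 2) ℂ) i j +
        (1 : Matrix (Fin 2) (Fin 2) ℂ) k l * X (Sum.inr (Sum.inl i)) (Sum.inr (Sum.inl j)) := by
    intro i j k l
    have e1 := (hA1 i j).fun_mul (hA2 k l)
    have e2 := (hA1 k l).fun_mul (hA2 i j)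
    have e3 : (fun t => z t * g t i j * g t k l) = (fun t => z t * g t k l * g t i j) := by
      funext t; ring
    rw [e3] at e1
    have e4 := e1.unique e2
    rw [hg0, hg0, hz0, one_mul, one_mul] at e4
    exact e4
  have hzero : ∀ i j, (∀ t, repMat q (p t).1 (p t).2 i j = 0) → X i j = 0 := by
    intro i j h
    have e1 := hd' i j
    simp only [h] at e1
    exact e1.unique (hasDerivAt_const _ _)
  have r1 := hrel 0 0 1 1
  have r2 := hrel 0 1 0 0
  have r3 := hrel 1 0 0 0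
  simp only [Matrix.one_apply_eq, Matrix.one_apply_ne (zero_ne_one : (0 : Fin 2) ≠ 1),
    Matrix.one_apply_ne (one_ne_zero : (1 : Fin 2) ≠ 0)] at r1 r2 r3
  refine ⟨fun i j => X (Sum.inr (Sum.inl i)) (Sum.inr (Sum.inl j)),
    X (Sum.inl 0) (Sum.inl 0) - X (Sum.inr (Sum.inl 0)) (Sum.inr (Sum.inl 0)), ?_⟩
  ext i j
  rcases i with i | i | i <;> rcases j with j | j | j
  · simp only [lieMat, fromBlocks_apply₁₁, Matrix.add_apply, Matrix.smul_apply, smul_eq_mul]
    fin_cases i <;> fin_cases j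
    · simp
    · simp
      linear_combination r2
    · simp
      linear_combination r3
    · simp
      linear_combination -r1
  · simp only [lieMat, fromBlocks_apply₁₂, Matrix.zero_apply]
    exact hzero _ _ (fun t => by simp [repMat])
  · simp only [lieMat, fromBlocks_apply₁₂, Matrix.zero_apply]
    exact hzero _ _ (fun t => by simp [repMat])
  · simp only [lieMat, fromBlocks_apply₂₁, Matrix.zero_apply]
    exact hzero _ _ (fun t => by simp [repMat])
  · simp [lieMat]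
  · simp only [lieMat, fromBlocks_apply₂₂, fromBlocks_apply₁₂, Matrix.zero_apply]
    exact hzero _ _ (fun t => by simp [repMat])
  · simp only [lieMat, fromBlocks_apply₂₁, Matrix.zero_apply]
    exact hzero _ _ (fun t => by simp [repMat])
  · simp only [lieMat, fromBlocks_apply₂₂, fromBlocks_apply₂₁, Matrix.zero_apply]
    exact hzero _ _ (fun t => by simp [repMat])
  · simp only [lieMat, fromBlocks_apply₂₂, Matrix.smul_apply, smul_eq_mul]
    have e1 : HasDerivAt (fun t => (g t).det * (1 : Matrix (Fin q) (Fin q) ℂ) i j)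
      (X (Sum.inr (Sum.inr i)) (Sum.inr (Sum.inr j))) 0 :=
      hd' (Sum.inr (Sum.inr i)) (Sum.inr (Sum.inr j))
    have e2 : HasDerivAt (fun t => (g t).det)
        (X (Sum.inr (Sum.inl 0)) (Sum.inr (Sum.inl 0)) +
          X (Sum.inr (Sum.inl 1)) (Sum.inr (Sum.inl 1))) 0 := by
      have e3 := ((hA2 0 0).fun_mul (hA2 1 1)).fun_sub ((hA2 0 1).fun_mul (hA2 1 0))
      rw [hg0, hg0, hg0, hg0] at e3
      simp only [Matrix.det_fin_two]
      refine e3.congr_deriv ?_
      simp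
    exact e1.unique (e2.mul_const _)

/-- the complex part of the moment value: `X ↦ (1/2) tr X₁ + (3/2) tr X₂` -/
noncomputable def xiC (q : ℕ) : Matrix (Idx q) (Idx q) ℂ →ₗ[ℝ] ℂ where
  toFun X := (1 / 2 : ℂ) * (X.toBlocks₁₁).trace + (3 / 2 : ℂ) * (X.toBlocks₂₂.toBlocks₁₁).trace
  map_add' X Y := by
    simp [Matrix.trace, Matrix.toBlocks₁₁, Matrix.toBlocks₂₂]
    ring
  map_smul' r X := by
    simp [Matrix.trace, Matrix.toBlocks₁₁, Matrix.toBlocks₂₂]
    ring

/-- the moment value `ξ = (0, ξ_ℂ)` -/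
noncomputable def xi (q : ℕ) : MomentValue (Idx q) := (0, xiC q)

theorem xiC_lieMat (q : ℕ) (Y : Matrix (Fin 2) (Fin 2) ℂ) (w : ℂ) :
    xiC q (lieMat q Y w) = 2 * (Y 0 0 + Y 1 1) + w := by
  simp [xiC, lieMat, Matrix.trace_fin_two]
  ring

theorem conj_lieMat (q : ℕ) (g : Matrix.unitaryGroup (Fin 2) ℂ) (z : Circle)
    (Y : Matrix (Fin 2) (Fin 2) ℂ) (w : ℂ) :
    ((rep q (g, z) : Matrix.unitaryGroup (Idx q) ℂ) : Matrix (Idx q) (Idx q) ℂ) * lieMat q Y w *
      (((rep q (g, z))⁻¹ : Matrix.unitaryGroup (Idx q) ℂ) : Matrix (Idx q) (Idx q) ℂ) =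
    lieMat q ((g : Matrix (Fin 2) (Fin 2) ℂ) * Y * star (g : Matrix (Fin 2) (Fin 2) ℂ)) w := by
  have hg : (g : Matrix (Fin 2) (Fin 2) ℂ) * star (g : Matrix (Fin 2) (Fin 2) ℂ) = 1 :=
      Matrix.mem_unitaryGroup_iff.1 g.2
  have hz : (z : ℂ) * star (z : ℂ) = 1 := by
    have := Circle.coe_inv_eq_conj z
    have h3 : (z : ℂ) * ((z⁻¹ : Circle) : ℂ) = 1 := by
      rw [← Circle.coe_mul, mul_inv_cancel, Circle.coe_one]
    rw [this] at h3
    exact h3
  have hdet : (g : Matrix (Fin 2) (Fin 2) ℂ).det * (star (g : Matrix (Fin 2) (Fin 2) ℂ)).det = 1 := by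
    rw [← Matrix.det_mul, hg, Matrix.det_one]
  have htr : ((g : Matrix (Fin 2) (Fin 2) ℂ) * Y * star (g : Matrix (Fin 2) (Fin 2) ℂ)).trace =
      Y.trace := by
    rw [Matrix.trace_mul_cycle]
    have : star (g : Matrix (Fin 2) (Fin 2) ℂ) * (g : Matrix (Fin 2) (Fin 2) ℂ) = 1 :=
      Matrix.mem_unitaryGroup_iff'.1 g.2
    rw [this, Matrix.one_mul]
  rw [Matrix.trace_fin_two, Matrix.trace_fin_two] at htr
  change repMat q g z * lieMat q Y w * star (repMat q g z) = _
  rw [repMat_star]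
  simp only [repMat, lieMat, fromBlocks_multiply, Matrix.mul_zero, Matrix.zero_mul, add_zero,
    zero_add]
  rw [Matrix.fromBlocks_inj, Matrix.fromBlocks_inj]
  refine ⟨?_, rfl, rfl, rfl, rfl, rfl, ?_⟩
  · have key : ((z : ℂ) * w) * star (z : ℂ) = w := by linear_combination w * hz
    rw [Matrix.mul_add, Matrix.add_mul, smul_mul_assoc, smul_mul_smul_comm, hz, one_smul]
    congr 1
    rw [smul_mul_smul_comm, Matrix.mul_one, smul_mul_smul_comm, hg, key]
  · rw [htr, smul_mul_smul_comm, smul_mul_smul_comm, Matrix.one_mul, Matrix.one_mul]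
    congr 1
    linear_combination (Y 0 0 + Y 1 1) * hdet

theorem isCentral_xi (q : ℕ) : IsCentral (grp q) (xi q) := by
  rintro _ ⟨⟨g, z⟩, rfl⟩ X hX
  obtain ⟨Y, w, rfl⟩ := lieAlgebra_eq q X hX
  rw [conj_lieMat]
  refine ⟨rfl, ?_⟩
  change xiC q _ = xiC q _
  rw [xiC_lieMat, xiC_lieMat]
  have htr : ((g : Matrix (Fin 2) (Fin 2) ℂ) * Y * star (g : Matrix (Fin 2) (Fin 2) ℂ)).trace =
      Y.trace := by
    rw [Matrix.trace_mul_cycle]
    have : star (g : Matrix (Fin 2) (Fin 2) ℂ) * (g : Matrix (Fin 2) (Fin 2) ℂ) = 1 :=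
      Matrix.mem_unitaryGroup_iff'.1 g.2
    rw [this, Matrix.one_mul]
  rw [Matrix.trace_fin_two, Matrix.trace_fin_two] at htr
  rw [htr]

/-- the pairing `b X a` for an infinitesimal element -/
theorem momentComplex_lieMat (q : ℕ) (x : Cot (Idx q)) (Y : Matrix (Fin 2) (Fin 2) ℂ) (w : ℂ) :
    momentComplex x (lieMat q Y w) =
      x.2 (Sum.inl 0) * ((Y 0 0 + w) * x.1 (Sum.inl 0) + Y 0 1 * x.1 (Sum.inl 1)) +
      x.2 (Sum.inl 1) * (Y 1 0 * x.1 (Sum.inl 0) + (Y 1 1 + w) * x.1 (Sum.inl 1)) +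
      x.2 (Sum.inr (Sum.inl 0)) * (Y 0 0 * x.1 (Sum.inr (Sum.inl 0)) +
        Y 0 1 * x.1 (Sum.inr (Sum.inl 1))) +
      x.2 (Sum.inr (Sum.inl 1)) * (Y 1 0 * x.1 (Sum.inr (Sum.inl 0)) +
        Y 1 1 * x.1 (Sum.inr (Sum.inl 1))) +
      (Y 0 0 + Y 1 1) * ∑ k, x.2 (Sum.inr (Sum.inr k)) * x.1 (Sum.inr (Sum.inr k)) := by
  simp only [momentComplex, dotProduct, Matrix.mulVec, Fintype.sum_sum_type, lieMat,
    fromBlocks_apply₁₁, fromBlocks_apply₁₂, fromBlocks_apply₂₁, fromBlocks_apply₂₂,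
    Fin.sum_univ_two, Matrix.zero_apply, zero_mul, Finset.sum_const_zero, add_zero, zero_add,
    Matrix.add_apply, Matrix.smul_apply, smul_eq_mul, Matrix.one_apply, mul_ite, ite_mul,
    mul_one, mul_zero, Finset.sum_ite_eq, Finset.mem_univ, if_true]
  simp
  rw [Finset.mul_sum]
  have : ∀ k : Fin q, x.2 (Sum.inr (Sum.inr k)) * ((Y 0 0 + Y 1 1) * x.1 (Sum.inr (Sum.inr k))) =
    (Y 0 0 + Y 1 1) * (x.2 (Sum.inr (Sum.inr k)) * x.1 (Sum.inr (Sum.inr k))) := by
    intro k; ring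
  simp only [this]
  ring

theorem circle_mul_star (z : Circle) : (z : ℂ) * star (z : ℂ) = 1 := by
  have := Circle.coe_inv_eq_conj z
  have h3 : (z : ℂ) * ((z⁻¹ : Circle) : ℂ) = 1 := by
    rw [← Circle.coe_mul, mul_inv_cancel, Circle.coe_one]
  rw [this] at h3
  exact h3

theorem hasDerivAt_circle_exp : HasDerivAt (fun t : ℝ => (Circle.exp t : ℂ)) Complex.I 0 := by
  have h1 : HasDerivAt (fun t : ℝ => ((t : ℝ) : ℂ) * Complex.I) (((1 : ℝ) : ℂ) * Complex.I) 0 :=
    ((hasDerivAt_id (0 : ℝ)).ofReal_comp).mul_const Complex.I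
  have h2 := h1.cexp
  simp only [Circle.coe_exp]
  convert h2 using 1
  simp

theorem hasDerivAt_cos : HasDerivAt (fun t : ℝ => ((Real.cos t : ℝ) : ℂ)) 0 0 := by
  have := (Real.hasDerivAt_cos 0).ofReal_comp
  simpa using this

theorem hasDerivAt_sin : HasDerivAt (fun t : ℝ => ((Real.sin t : ℝ) : ℂ)) 1 0 := by
  have := (Real.hasDerivAt_sin 0).ofReal_comp
  simpa using this

theorem lieMat_mem_w (q : ℕ) : lieMat q 0 Complex.I ∈ lieAlgebra (grp q) := by
  refine lieMat_mem q (fun _ => 1) (fun t => Circle.exp t) _ _ rfl (by simp) ?_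
    hasDerivAt_circle_exp
  intro i j
  exact hasDerivAt_const _ _

theorem lieMat_mem_d0 (q : ℕ) : lieMat q !![Complex.I, 0; 0, 0] 0 ∈ lieAlgebra (grp q) := by
  refine lieMat_mem q (fun t => ⟨!![(Circle.exp t : ℂ), 0; 0, 1], ?_⟩) (fun _ => 1) _ _ ?_ rfl ?_
    (hasDerivAt_const _ _)
  · rw [Matrix.mem_unitaryGroup_iff]
    ext i j
    fin_cases i <;> fin_cases j <;> simp [Matrix.mul_apply, Fin.sum_univ_two, Matrix.star_apply]
    have := circle_mul_star (Circle.exp t)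
    rw [Circle.coe_exp] at this
    exact this
  · apply Subtype.ext
    ext i j
    fin_cases i <;> fin_cases j <;> simp
  · intro i j
    fin_cases i <;> fin_cases j
    · simpa using hasDerivAt_circle_exp
    · simpa using hasDerivAt_const (0 : ℝ) (0 : ℂ)
    · simpa using hasDerivAt_const (0 : ℝ) (0 : ℂ)
    · simpa using hasDerivAt_const (0 : ℝ) (1 : ℂ)

theorem lieMat_mem_d1 (q : ℕ) : lieMat q !![0, 0; 0, Complex.I] 0 ∈ lieAlgebra (grp q) := by
  refine lieMat_mem q (fun t => ⟨!![1, 0; 0, (Circle.exp t : ℂ)], ?_⟩) (fun _ => 1) _ _ ?_ rfl ?_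
    (hasDerivAt_const _ _)
  · rw [Matrix.mem_unitaryGroup_iff]
    ext i j
    fin_cases i <;> fin_cases j <;> simp [Matrix.mul_apply, Fin.sum_univ_two, Matrix.star_apply]
    have := circle_mul_star (Circle.exp t)
    rw [Circle.coe_exp] at this
    exact this
  · apply Subtype.ext
    ext i j
    fin_cases i <;> fin_cases j <;> simp
  · intro i j
    fin_cases i <;> fin_cases j
    · simpa using hasDerivAt_const (0 : ℝ) (1 : ℂ)
    · simpa using hasDerivAt_const (0 : ℝ) (0 : ℂ)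
    · simpa using hasDerivAt_const (0 : ℝ) (0 : ℂ)
    · simpa using hasDerivAt_circle_exp

theorem lieMat_mem_r (q : ℕ) : lieMat q !![0, -1; 1, 0] 0 ∈ lieAlgebra (grp q) := by
  refine lieMat_mem q (fun t => ⟨!![((Real.cos t : ℝ) : ℂ), -((Real.sin t : ℝ) : ℂ);
    ((Real.sin t : ℝ) : ℂ), ((Real.cos t : ℝ) : ℂ)], ?_⟩) (fun _ => 1) _ _ ?_ rfl ?_
    (hasDerivAt_const _ _)
  · have h : ((Real.cos t : ℝ) : ℂ) ^ 2 + ((Real.sin t : ℝ) : ℂ) ^ 2 = 1 := by
      rw [← Complex.ofReal_pow, ← Complex.ofReal_pow, ← Complex.ofReal_add, Real.cos_sq_add_sin_sq,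
        Complex.ofReal_one]
    rw [Matrix.mem_unitaryGroup_iff]
    ext i j
    fin_cases i <;> fin_cases j <;>
      simp [Matrix.mul_apply, Fin.sum_univ_two, Matrix.star_apply, Complex.conj_ofReal,
        -Complex.ofReal_cos, -Complex.ofReal_sin]
    · linear_combination h
    · ring
    · ring
    · linear_combination h
  · apply Subtype.ext
    ext i j
    fin_cases i <;> fin_cases j <;> simp
  · intro i j
    fin_cases i <;> fin_cases j
    · simpa using hasDerivAt_cos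
    · simpa using hasDerivAt_sin.fun_neg
    · simpa using hasDerivAt_sin
    · simpa using hasDerivAt_cos

theorem lieMat_mem_s (q : ℕ) :
    lieMat q !![0, Complex.I; Complex.I, 0] 0 ∈ lieAlgebra (grp q) := by
  refine lieMat_mem q (fun t => ⟨!![((Real.cos t : ℝ) : ℂ), Complex.I * ((Real.sin t : ℝ) : ℂ);
    Complex.I * ((Real.sin t : ℝ) : ℂ), ((Real.cos t : ℝ) : ℂ)], ?_⟩) (fun _ => 1) _ _ ?_ rfl ?_
    (hasDerivAt_const _ _)
  · have h : ((Real.cos t : ℝ) : ℂ) ^ 2 + ((Real.sin t : ℝ) : ℂ) ^ 2 = 1 := by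
      rw [← Complex.ofReal_pow, ← Complex.ofReal_pow, ← Complex.ofReal_add, Real.cos_sq_add_sin_sq,
        Complex.ofReal_one]
    have hI : Complex.I ^ 2 = -1 := Complex.I_sq
    rw [Matrix.mem_unitaryGroup_iff]
    ext i j
    fin_cases i <;> fin_cases j <;>
      simp [Matrix.mul_apply, Fin.sum_univ_two, Matrix.star_apply, Complex.conj_ofReal,
        -Complex.ofReal_cos, -Complex.ofReal_sin]
    · linear_combination h - ((Real.sin t : ℝ) : ℂ) ^ 2 * hI
    · ring
    · ring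
    · linear_combination h - ((Real.sin t : ℝ) : ℂ) ^ 2 * hI
  · apply Subtype.ext
    ext i j
    fin_cases i <;> fin_cases j <;> simp
  · intro i j
    fin_cases i <;> fin_cases j
    · simpa using hasDerivAt_cos
    · simpa using hasDerivAt_sin.const_mul Complex.I
    · simpa using hasDerivAt_sin.const_mul Complex.I
    · simpa using hasDerivAt_cos

/-- the invariant `s = b₃ · a₃` -/
noncomputable def sInv {q : ℕ} (x : Cot (Idx q)) : ℂ :=
  ∑ k, x.2 (Sum.inr (Sum.inr k)) * x.1 (Sum.inr (Sum.inr k))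

theorem level_eqs (q : ℕ) (x : Cot (Idx q)) (hx : x ∈ levelSet (grp q) (xi q)) :
    x.2 (Sum.inl 0) * x.1 (Sum.inl 0) + x.2 (Sum.inl 1) * x.1 (Sum.inl 1) = 1 ∧
    x.1 (Sum.inl 0) * x.2 (Sum.inl 0) +
      x.1 (Sum.inr (Sum.inl 0)) * x.2 (Sum.inr (Sum.inl 0)) = 2 - sInv x ∧
    x.1 (Sum.inl 1) * x.2 (Sum.inl 1) +
      x.1 (Sum.inr (Sum.inl 1)) * x.2 (Sum.inr (Sum.inl 1)) = 2 - sInv x ∧
    x.1 (Sum.inl 0) * x.2 (Sum.inl 1) +
      x.1 (Sum.inr (Sum.inl 0)) * x.2 (Sum.inr (Sum.inl 1)) = 0 ∧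
    x.1 (Sum.inl 1) * x.2 (Sum.inl 0) +
      x.1 (Sum.inr (Sum.inl 1)) * x.2 (Sum.inr (Sum.inl 0)) = 0 := by
  have hI : Complex.I * Complex.I = -1 := Complex.I_mul_I
  have key : ∀ Y w, lieMat q Y w ∈ lieAlgebra (grp q) →
      momentComplex x (lieMat q Y w) = 2 * (Y 0 0 + Y 1 1) + w := by
    intro Y w h
    rw [← xiC_lieMat]
    exact (hx _ h).2
  have k1 := key _ _ (lieMat_mem_w q)
  have k2 := key _ _ (lieMat_mem_d0 q)
  have k3 := key _ _ (lieMat_mem_d1 q)
  have k4 := key _ _ (lieMat_mem_r q)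
  have k5 := key _ _ (lieMat_mem_s q)
  rw [momentComplex_lieMat] at k1 k2 k3 k4 k5
  change _ + _ * sInv x = _ at k1
  change _ + _ * sInv x = _ at k2
  change _ + _ * sInv x = _ at k3
  change _ + _ * sInv x = _ at k4
  change _ + _ * sInv x = _ at k5
  simp only [Matrix.zero_apply, Matrix.of_apply, Matrix.cons_val', Matrix.cons_val_zero,
    Matrix.cons_val_one, Matrix.cons_val_fin_one] at k1 k2 k3 k4 k5
  refine ⟨?_, ?_, ?_, ?_, ?_⟩
  · linear_combination (-Complex.I) * k1 + (x.2 (Sum.inl 0) * x.1 (Sum.inl 0) +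
      x.2 (Sum.inl 1) * x.1 (Sum.inl 1) - 1) * hI
  · linear_combination (-Complex.I) * k2 + (x.2 (Sum.inl 0) * x.1 (Sum.inl 0) +
      x.2 (Sum.inr (Sum.inl 0)) * x.1 (Sum.inr (Sum.inl 0)) + sInv x - 2) * hI
  · linear_combination (-Complex.I) * k3 + (x.2 (Sum.inl 1) * x.1 (Sum.inl 1) +
      x.2 (Sum.inr (Sum.inl 1)) * x.1 (Sum.inr (Sum.inl 1)) + sInv x - 2) * hI
  · linear_combination (1 / 2) * k4 - (Complex.I / 2) * k5 + (1 / 2) * (
      x.2 (Sum.inl 0) * x.1 (Sum.inl 1) + x.2 (Sum.inl 1) * x.1 (Sum.inl 0) +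
      x.2 (Sum.inr (Sum.inl 0)) * x.1 (Sum.inr (Sum.inl 1)) +
      x.2 (Sum.inr (Sum.inl 1)) * x.1 (Sum.inr (Sum.inl 0))) * hI
  · linear_combination (-1 / 2) * k4 - (Complex.I / 2) * k5 + (1 / 2) * (
      x.2 (Sum.inl 0) * x.1 (Sum.inl 1) + x.2 (Sum.inl 1) * x.1 (Sum.inl 0) +
      x.2 (Sum.inr (Sum.inl 0)) * x.1 (Sum.inr (Sum.inl 1)) +
      x.2 (Sum.inr (Sum.inl 1)) * x.1 (Sum.inr (Sum.inl 0))) * hI

theorem sInv_eq (q : ℕ) (x : Cot (Idx q)) (hx : x ∈ levelSet (grp q) (xi q)) :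
    sInv x = 1 ∨ sInv x = 2 := by
  obtain ⟨hb, h00, h11, h01, h10⟩ := level_eqs q x hx
  have := alg_dichotomy _ _ _ _ _ _ _ _ _ h00 h11 h01 h10 hb
  rcases mul_eq_zero.1 this with h | h
  · right; linear_combination -h
  · left; linear_combination h

theorem actsFreely (q : ℕ) : ActsFreely (grp q) (xi q) := by
  rintro x hx _ ⟨⟨h, z⟩, rfl⟩ hfix
  obtain ⟨hb, h00, h11, h01, h10⟩ := level_eqs q x hx
  have hfix1 : repMat q h z *ᵥ x.1 = x.1 := congrArg Prod.fst hfix
  have hfix2' : x.2 ᵥ* (((rep q (h, z))⁻¹ : Matrix.unitaryGroup (Idx q) ℂ) :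
      Matrix (Idx q) (Idx q) ℂ) = x.2 := congrArg Prod.snd hfix
  have hfix2 : x.2 ᵥ* repMat q h z = x.2 := by
    have e1 : (((rep q (h, z))⁻¹ : Matrix.unitaryGroup (Idx q) ℂ) :
      Matrix (Idx q) (Idx q) ℂ) * repMat q h z = 1 := by
      change (((rep q (h, z))⁻¹ * rep q (h, z) : Matrix.unitaryGroup (Idx q) ℂ) :
        Matrix (Idx q) (Idx q) ℂ) = 1
      rw [inv_mul_cancel]; rfl
    calc x.2 ᵥ* repMat q h z = (x.2 ᵥ* (((rep q (h, z))⁻¹ : Matrix.unitaryGroup (Idx q) ℂ) :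
      Matrix (Idx q) (Idx q) ℂ)) ᵥ* repMat q h z := by rw [hfix2']
      _ = x.2 := by rw [Matrix.vecMul_vecMul, e1, Matrix.vecMul_one]
  have e1 := congrFun hfix1 (Sum.inl 0)
  have e2 := congrFun hfix1 (Sum.inl 1)
  have e3 := congrFun hfix1 (Sum.inr (Sum.inl 0))
  have e4 := congrFun hfix1 (Sum.inr (Sum.inl 1))
  have e5 := congrFun hfix2 (Sum.inl 0)
  have e6 := congrFun hfix2 (Sum.inl 1)
  simp only [Matrix.mulVec, Matrix.vecMul, dotProduct, Fintype.sum_sum_type, repMat,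
    fromBlocks_apply₁₁, fromBlocks_apply₁₂, fromBlocks_apply₂₁, fromBlocks_apply₂₂,
    Fin.sum_univ_two, Matrix.zero_apply, zero_mul, mul_zero, Finset.sum_const_zero, add_zero,
    zero_add, Matrix.smul_apply, smul_eq_mul] at e1 e2 e3 e4 e5 e6
  have hdet : (h : Matrix (Fin 2) (Fin 2) ℂ).det = 1 := by
    have hs : sInv x ≠ 0 := by
      rcases sInv_eq q x hx with h | h <;> rw [h]
      · exact one_ne_zero
      · exact two_ne_zero
    obtain ⟨k, _, hk⟩ := Finset.exists_ne_zero_of_sum_ne_zero hs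
    have hk1 : x.1 (Sum.inr (Sum.inr k)) ≠ 0 := fun h0 => hk (by rw [h0, mul_zero])
    have e7 := congrFun hfix1 (Sum.inr (Sum.inr k))
    simp only [Matrix.mulVec, dotProduct, Fintype.sum_sum_type, repMat,
      fromBlocks_apply₂₁, fromBlocks_apply₂₂, Matrix.zero_apply, zero_mul,
      Finset.sum_const_zero, zero_add, Matrix.smul_apply, smul_eq_mul, Matrix.one_apply,
      mul_ite, mul_one, mul_zero, ite_mul, Finset.sum_ite_eq, Finset.mem_univ, if_true] at e7
    have : ((h : Matrix (Fin 2) (Fin 2) ℂ).det - 1) * x.1 (Sum.inr (Sum.inr k)) = 0 := by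
      linear_combination e7
    rcases mul_eq_zero.1 this with h | h
    · linear_combination h
    · exact absurd h hk1
  rw [Matrix.det_fin_two] at hdet
  have concl : (z : ℂ) = 1 ∧ (h : Matrix (Fin 2) (Fin 2) ℂ) 0 0 = 1 ∧
      (h : Matrix (Fin 2) (Fin 2) ℂ) 0 1 = 0 ∧ (h : Matrix (Fin 2) (Fin 2) ℂ) 1 0 = 0 ∧
      (h : Matrix (Fin 2) (Fin 2) ℂ) 1 1 = 1 := by
    rcases sInv_eq q x hx with hs | hs
    · rw [hs] at h00 h11
      refine alg_free_one (x.1 (Sum.inl 0)) (x.1 (Sum.inl 1)) (x.1 (Sum.inr (Sum.inl 0)))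
        (x.1 (Sum.inr (Sum.inl 1))) (x.2 (Sum.inl 0)) (x.2 (Sum.inl 1))
        (x.2 (Sum.inr (Sum.inl 0))) (x.2 (Sum.inr (Sum.inl 1))) _ _ _ _ _
        ?_ ?_ h01 h10 ?_ ?_ e3 e4 hdet
      · linear_combination h00
      · linear_combination h11
      · linear_combination e1
      · linear_combination e2
    · rw [hs] at h00 h11
      refine alg_free_two (x.1 (Sum.inl 0)) (x.1 (Sum.inl 1)) (x.1 (Sum.inr (Sum.inl 0)))
        (x.1 (Sum.inr (Sum.inl 1))) (x.2 (Sum.inl 0)) (x.2 (Sum.inl 1))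
        (x.2 (Sum.inr (Sum.inl 0))) (x.2 (Sum.inr (Sum.inl 1))) _ _ _ _ _
        ?_ ?_ h01 h10 hb ?_ ?_ e3 e4 ?_ ?_ hdet
      · linear_combination h00
      · linear_combination h11
      · linear_combination e1
      · linear_combination e2
      · linear_combination e5
      · linear_combination e6
  obtain ⟨hz, c00, c01, c10, c11⟩ := concl
  have hz1 : z = 1 := Circle.ext hz
  have hh1 : h = 1 := by
    apply Subtype.ext
    ext i j
    fin_cases i <;> fin_cases j <;> simp [c00, c01, c10, c11]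
  rw [hz1, hh1]
  exact (rep q).map_one

/-- a point of `T*A` with third components concentrated at the index `k` -/
noncomputable def pt (q : ℕ) (k : Fin q) (a2 b2 : Fin 2 → ℂ) (r : ℂ) : Cot (Idx q) :=
  (Sum.elim ![1, 0] (Sum.elim a2 (Pi.single k r)), Sum.elim ![1, 0] (Sum.elim b2 (Pi.single k r)))

theorem sInv_pt (q : ℕ) (k : Fin q) (a2 b2 : Fin 2 → ℂ) (r : ℂ) : sInv (pt q k a2 b2 r) = r * r := by
  simp [sInv, pt, Pi.single_apply]

theorem pt_mem (q : ℕ) (k : Fin q) (a2 b2 : Fin 2 → ℂ) (r : ℝ)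
    (h1 : ∀ Y : Matrix (Fin 2) (Fin 2) ℂ,
      b2 0 * (Y 0 0 * a2 0 + Y 0 1 * a2 1) + b2 1 * (Y 1 0 * a2 0 + Y 1 1 * a2 1) =
        2 * (Y 0 0 + Y 1 1) - Y 0 0 - (Y 0 0 + Y 1 1) * (r * r))
    (h2 : ∀ Y : Matrix (Fin 2) (Fin 2) ℂ,
      star (a2 0) * (Y 0 0 * a2 0 + Y 0 1 * a2 1) + star (a2 1) * (Y 1 0 * a2 0 + Y 1 1 * a2 1) =
      b2 0 * (Y 0 0 * star (b2 0) + Y 0 1 * star (b2 1)) +
        b2 1 * (Y 1 0 * star (b2 0) + Y 1 1 * star (b2 1))) :
    pt q k a2 b2 r ∈ levelSet (grp q) (xi q) := by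
  intro X hX
  obtain ⟨Y, w, rfl⟩ := lieAlgebra_eq q X hX
  constructor
  · change momentReal _ _ = 0
    have e1 := momentComplex_lieMat q ((pt q k a2 b2 r).1, star (pt q k a2 b2 r).1) Y w
    have e2 := momentComplex_lieMat q (star (pt q k a2 b2 r).2, (pt q k a2 b2 r).2) Y w
    have e3 : star (pt q k a2 b2 r).1 ⬝ᵥ (lieMat q Y w *ᵥ (pt q k a2 b2 r).1) =
        (pt q k a2 b2 r).2 ⬝ᵥ (lieMat q Y w *ᵥ star (pt q k a2 b2 r).2) := by
      change momentComplex ((pt q k a2 b2 r).1, star (pt q k a2 b2 r).1) _ =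
        momentComplex (star (pt q k a2 b2 r).2, (pt q k a2 b2 r).2) _
      rw [e1, e2]
      have := h2 Y
      simp [pt, Pi.single_apply] at this ⊢
      linear_combination this
    unfold momentReal
    rw [e3, sub_self, mul_zero, Complex.zero_re]
  · change momentComplex _ _ = xiC q _
    rw [xiC_lieMat, momentComplex_lieMat]
    change _ + (Y 0 0 + Y 1 1) * sInv (pt q k a2 b2 r) = _
    rw [sInv_pt]
    have := h1 Y
    simp [pt] at this ⊢
    linear_combination this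

theorem pt_one_mem (q : ℕ) (k : Fin q) :
    pt q k ![0, 1] ![0, 1] ((1 : ℝ) : ℂ) ∈ levelSet (grp q) (xi q) := by
  apply pt_mem
  · intro Y
    simp
    ring
  · intro Y
    simp

theorem pt_two_mem (q : ℕ) (k : Fin q) :
    pt q k ![1, 0] ![-1, 0] ((Real.sqrt 2 : ℝ) : ℂ) ∈ levelSet (grp q) (xi q) := by
  have h : ((Real.sqrt 2 : ℝ) : ℂ) * ((Real.sqrt 2 : ℝ) : ℂ) = 2 := by
    rw [← Complex.ofReal_mul, Real.mul_self_sqrt (by norm_num)]
    norm_num
  apply pt_mem
  · intro Y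
    rw [h]
    simp
    ring
  · intro Y
    simp

/-- `s` is `G`-invariant -/
theorem sInv_act (q : ℕ) (g : Matrix.unitaryGroup (Idx q) ℂ) (hg : g ∈ grp q) (x : Cot (Idx q)) :
    sInv (act g x) = sInv x := by
  obtain ⟨⟨h, z⟩, rfl⟩ := hg
  have hdet : star ((h : Matrix (Fin 2) (Fin 2) ℂ).det) * (h : Matrix (Fin 2) (Fin 2) ℂ).det = 1 := by
    have hh : star (h : Matrix (Fin 2) (Fin 2) ℂ) * (h : Matrix (Fin 2) (Fin 2) ℂ) = 1 :=
      Matrix.mem_unitaryGroup_iff'.1 h.2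
    have := congrArg Matrix.det hh
    rwa [Matrix.det_mul, Matrix.star_eq_conjTranspose, Matrix.det_conjTranspose,
      Matrix.det_one] at this
  have e1 : ∀ k, (act (rep q (h, z)) x).1 (Sum.inr (Sum.inr k)) =
      (h : Matrix (Fin 2) (Fin 2) ℂ).det * x.1 (Sum.inr (Sum.inr k)) := by
    intro k
    change (repMat q h z *ᵥ x.1) (Sum.inr (Sum.inr k)) = _
    simp only [Matrix.mulVec, dotProduct, Fintype.sum_sum_type, repMat,
      fromBlocks_apply₂₁, fromBlocks_apply₂₂, Matrix.zero_apply, zero_mul,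
      Finset.sum_const_zero, zero_add, Matrix.smul_apply, smul_eq_mul, Matrix.one_apply,
      mul_ite, mul_one, mul_zero, ite_mul, Finset.sum_ite_eq, Finset.mem_univ, if_true]
  have e2 : ∀ k, (act (rep q (h, z)) x).2 (Sum.inr (Sum.inr k)) =
      x.2 (Sum.inr (Sum.inr k)) * star ((h : Matrix (Fin 2) (Fin 2) ℂ).det) := by
    intro k
    change (x.2 ᵥ* star (repMat q h z)) (Sum.inr (Sum.inr k)) = _
    rw [repMat_star]
    simp only [Matrix.vecMul, dotProduct, Fintype.sum_sum_type, repMat,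
      fromBlocks_apply₁₂, fromBlocks_apply₂₂, Matrix.zero_apply, mul_zero,
      Finset.sum_const_zero, zero_add, Matrix.smul_apply, smul_eq_mul, Matrix.one_apply,
      mul_ite, mul_one, Finset.sum_ite_eq', Finset.mem_univ, if_true]
    rw [Matrix.star_eq_conjTranspose, Matrix.det_conjTranspose]
  unfold sInv
  refine Finset.sum_congr rfl fun k _ => ?_
  rw [e1, e2]
  linear_combination (x.2 (Sum.inr (Sum.inr k)) * x.1 (Sum.inr (Sum.inr k))) * hdet

theorem continuous_sInv (q : ℕ) : Continuous (sInv : Cot (Idx q) → ℂ) := by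
  unfold sInv
  fun_prop

/-- `s` as a function on the homotopy quotient -/
noncomputable def sQuot (q : ℕ) (E : Type) [MulAction (grp q) E] :
    HomotopyQuotient (grp q) E → ℂ :=
  Quotient.lift (fun p => sInv p.2) (by
    rintro p p' ⟨g, _, h2⟩
    rw [← h2, sInv_act q _ g.2])

theorem continuous_sQuot (q : ℕ) (E : Type) [TopologicalSpace E] [MulAction (grp q) E] :
    Continuous (sQuot q E) :=
  Continuous.quotient_lift ((continuous_sInv q).comp continuous_snd) _

theorem sQuot_mem (q : ℕ) (E : Type) [MulAction (grp q) E] (y : HomotopyQuotient (grp q) E)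
    (hy : y ∈ levelPart (grp q) (xi q) E) : sQuot q E y ∈ ({1, 2} : Set ℂ) := by
  obtain ⟨e, x, hx, rfl⟩ := hy
  exact sInv_eq q x hx

/-- a singular `0`-cocycle on a space is constant along every singular `1`-simplex -/
theorem cocycle_eq {Y : Type} [TopologicalSpace Y]
    (ψ : C(stdSimplex ℝ (Fin (0 + 1)), Y) → ℚ) (hψ : IsCocycle ψ)
    (σ : C(stdSimplex ℝ (Fin (0 + 2)), Y)) : ψ (σ.comp (face 0 0)) = ψ (σ.comp (face 0 1)) := by
  have := hψ σ
  simp only [coboundary] at this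
  simp at this
  linear_combination this

theorem face_zero_apply (u : stdSimplex ℝ (Fin (0 + 1))) :
    face 0 0 u = stdSimplex.vertex (1 : Fin 2) := by
  have hu : u = stdSimplex.vertex (0 : Fin 1) := Subsingleton.elim _ _
  rw [hu]
  change stdSimplex.map _ _ = _
  rw [stdSimplex.map_vertex]
  rfl

theorem face_one_apply (u : stdSimplex ℝ (Fin (0 + 1))) :
    face 0 1 u = stdSimplex.vertex (0 : Fin 2) := by
  have hu : u = stdSimplex.vertex (0 : Fin 1) := Subsingleton.elim _ _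
  rw [hu]
  change stdSimplex.map _ _ = _
  rw [stdSimplex.map_vertex]
  rfl

theorem not_kirwanSurjective (q : ℕ) (k : Fin q) (E : Type) [TopologicalSpace E] [Nonempty E]
    [MulAction (grp q) E] : ¬ KirwanSurjective (grp q) (xi q) E := by
  classical
  intro hsurj
  set S := levelPart (grp q) (xi q) E with hS
  let v0 : stdSimplex ℝ (Fin (0 + 1)) := stdSimplex.vertex (0 : Fin 1)
  -- the `0`-cocycle on the level part
  let F : ℂ → ℚ := fun c => if c = 1 then 1 else 0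
  let φ : C(stdSimplex ℝ (Fin (0 + 1)), S) → ℚ := fun σ =>
    F (sQuot q E (σ v0 : HomotopyQuotient (grp q) E))
  have hφ : IsCocycle φ := by
    intro σ
    have hconst : ∀ u v : stdSimplex ℝ (Fin (0 + 2)),
        sQuot q E (σ u : HomotopyQuotient (grp q) E) =
          sQuot q E (σ v : HomotopyQuotient (grp q) E) := by
      have hc : Continuous fun u : stdSimplex ℝ (Fin (0 + 2)) =>
          sQuot q E (σ u : HomotopyQuotient (grp q) E) :=
        (continuous_sQuot q E).comp (continuous_subtype_val.comp σ.continuous)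
      have hm : Set.MapsTo (fun u : stdSimplex ℝ (Fin (0 + 2)) =>
          sQuot q E (σ u : HomotopyQuotient (grp q) E)) Set.univ ({1, 2} : Set ℂ) := by
        intro u _
        exact sQuot_mem q E _ (σ u).2
      intro u v
      exact isPreconnected_univ.constant_of_mapsTo (Set.toFinite _).isDiscrete
        hc.continuousOn hm (Set.mem_univ u) (Set.mem_univ v)
    have h1 : φ (σ.comp (face 0 0)) = φ (σ.comp (face 0 1)) :=
      congrArg F (hconst (face 0 0 v0) (face 0 1 v0))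
    simp only [coboundary]
    simp [h1]
  obtain ⟨ψ, hψ, hcob⟩ := hsurj 0 φ hφ
  obtain ⟨e⟩ := (inferInstance : Nonempty E)
  set P1 : Cot (Idx q) := pt q k ![0, 1] ![0, 1] ((1 : ℝ) : ℂ) with hP1
  set P2 : Cot (Idx q) := pt q k ![1, 0] ![-1, 0] ((Real.sqrt 2 : ℝ) : ℂ) with hP2
  -- the straight line from `P1` to `P2`
  let τ : C(stdSimplex ℝ (Fin (0 + 2)), HomotopyQuotient (grp q) E) :=
    ⟨fun u => Quotient.mk (borelSetoid (grp q) E) (e, u (0 : Fin 2) • P1 + u (1 : Fin 2) • P2), by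
      refine continuous_quotient_mk'.comp ?_
      refine continuous_const.prodMk ?_
      have h0 : Continuous fun u : stdSimplex ℝ (Fin (0 + 2)) => u (0 : Fin 2) :=
        (continuous_apply (0 : Fin 2)).comp continuous_subtype_val
      have h1 : Continuous fun u : stdSimplex ℝ (Fin (0 + 2)) => u (1 : Fin 2) :=
        (continuous_apply (1 : Fin 2)).comp continuous_subtype_val
      exact (h0.smul continuous_const).add (h1.smul continuous_const)⟩
  have hτ := cocycle_eq ψ hψ τ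
  let y1 : S := ⟨Quotient.mk (borelSetoid (grp q) E) (e, P1), e, P1, pt_one_mem q k, rfl⟩
  let y2 : S := ⟨Quotient.mk (borelSetoid (grp q) E) (e, P2), e, P2, pt_two_mem q k, rfl⟩
  have f0 : τ.comp (face 0 0) = (⟨Subtype.val, continuous_subtype_val⟩ :
      C(S, HomotopyQuotient (grp q) E)).comp (ContinuousMap.const _ y2) := by
    ext u
    simp only [ContinuousMap.comp_apply, face_zero_apply]
    change Quotient.mk (borelSetoid (grp q) E) (e, (Pi.single (1 : Fin 2) (1 : ℝ) : Fin 2 → ℝ) 0 • P1 +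
      (Pi.single (1 : Fin 2) (1 : ℝ) : Fin 2 → ℝ) 1 • P2) = _
    simp
    rfl
  have f1 : τ.comp (face 0 1) = (⟨Subtype.val, continuous_subtype_val⟩ :
      C(S, HomotopyQuotient (grp q) E)).comp (ContinuousMap.const _ y1) := by
    ext u
    simp only [ContinuousMap.comp_apply, face_one_apply]
    change Quotient.mk (borelSetoid (grp q) E) (e, (Pi.single (0 : Fin 2) (1 : ℝ) : Fin 2 → ℝ) 0 • P1 +
      (Pi.single (0 : Fin 2) (1 : ℝ) : Fin 2 → ℝ) 1 • P2) = _
    simp
    rfl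
  rw [f0, f1] at hτ
  have c1 := hcob (ContinuousMap.const _ y1)
  have c2 := hcob (ContinuousMap.const _ y2)
  have s1 : sQuot q E (y1 : HomotopyQuotient (grp q) E) = 1 := by
    change sInv P1 = 1
    rw [hP1, sInv_pt]
    norm_num
  have s2 : sQuot q E (y2 : HomotopyQuotient (grp q) E) = 2 := by
    change sInv P2 = 2
    rw [hP2, sInv_pt, ← Complex.ofReal_mul, Real.mul_self_sqrt (by norm_num)]
    norm_num
  have p1 : φ (ContinuousMap.const _ y1) = 1 := by
    simp [φ, F, s1]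
  have p2 : φ (ContinuousMap.const _ y2) = 0 := by
    simp [φ, F, s2]
  simp only [p1, p2] at c1 c2
  rw [hτ] at c2
  linarith

theorem rep_injective (q : ℕ) : Function.Injective (rep q) := by
  rintro ⟨g, z⟩ ⟨g', z'⟩ h
  have h1 : ∀ i j, repMat q g z i j = repMat q g' z' i j := fun i j =>
    congrFun (congrFun (congrArg Subtype.val h) i) j
  have hg : (g : Matrix (Fin 2) (Fin 2) ℂ) = g' := by
    ext i j
    simpa [repMat] using h1 (Sum.inr (Sum.inl i)) (Sum.inr (Sum.inl j))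
  have hz : (z : ℂ) = z' := by
    have h2 : (z : ℂ) • (g : Matrix (Fin 2) (Fin 2) ℂ) = (z' : ℂ) • (g : Matrix (Fin 2) (Fin 2) ℂ) := by
      ext i j
      have := h1 (Sum.inl i) (Sum.inl j)
      rw [← hg] at this
      simpa [repMat] using this
    have h3 := congrArg (fun M => M * star (g : Matrix (Fin 2) (Fin 2) ℂ)) h2
    have hgg : (g : Matrix (Fin 2) (Fin 2) ℂ) * star (g : Matrix (Fin 2) (Fin 2) ℂ) = 1 :=
      Matrix.mem_unitaryGroup_iff.1 g.2
    simp only [smul_mul_assoc, hgg] at h3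
    have h4 := congrFun (congrFun h3 0) 0
    simpa using h4
  rw [Subtype.ext hg, Circle.ext hz]

/-- **Main theorem.** -/
theorem result (q : ℕ) (hq : 1 ≤ q) :
    ∃ (G : Subgroup (Matrix.unitaryGroup (Fin 2 ⊕ (Fin 2 ⊕ Fin q)) ℂ))
      (ξ : MomentValue (Fin 2 ⊕ (Fin 2 ⊕ Fin q))),
      IsClosed (G : Set (Matrix.unitaryGroup (Fin 2 ⊕ (Fin 2 ⊕ Fin q)) ℂ)) ∧
      Nonempty (G ≃* Matrix.unitaryGroup (Fin 2) ℂ × Circle) ∧
      IsCentral G ξ ∧ ActsFreely G ξ ∧
      ∀ (E : Type) [TopologicalSpace E] [ContractibleSpace E] [MulAction G E]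
        [ContinuousSMul G E], ¬ KirwanSurjective G ξ E := by
  refine ⟨grp q, xi q, isClosed_grp q, ⟨(MonoidHom.ofInjective (rep_injective q)).symm⟩,
    isCentral_xi q, actsFreely q, ?_⟩
  intro E _ _ _ _
  exact not_kirwanSurjective q ⟨0, hq⟩ E

end Example

end Pool.Agent.Results.MP_8779dd_gt.KirwanNotSurjective
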